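import Pool.Agent.J4H63.BR.Final

/-!
# The minimal balance constants of posets of width `w`: `1/2 - δ_w ≤ C log log w / log w`

With `δ_w` the infimum of the balance constants of the finite posets of width `w`, exactly as in the
problem: there is a constant `C` with `δ_w ≥ 1/2 - ε` as soon as `w ≥ exp (C log (2/ε) / ε)`, that
is, `1/2 - δ_w ≤ C log log w / log w`; and `δ_w < δ_v` for all `v ≥ exp (C w)`, so that there is
a strict increase `δ_u < δ_{u+1}` with `w ≤ u ≤ exp (C w)`, for every `w ≥ 1`, even one with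
`δ_{u+1} - δ_u ≥ log u / (400000 u²)` for `w ≥ 2`.

The starting result `WidthRate` has `w ≥ exp (C log (2/ε)³ / ε⁴)` and `exp (C w⁴ log (w+1)³)`.  The
new ingredient is a bound for the number `N` of random variables (here: the positions of elements of
the poset near a given one, in a random linear extension, rounded to `2^J` cells) all pairs of which
are `ε`-unbalanced: `log N ≤ π J / ε`, which is of the right order.  The probabilities that one of
them is before another one are given by an alternating form of norm one on vectors of length `√J`.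
If `G` is the Gram matrix of the vectors and `B` the matrix of the form, `σ G + i τ B` is positive
semidefinite for `|τ| ≤ σ`, hence (Schur) the sum of the entries of its entrywise exponential is at
least `N²`.  For `σ = π / ε` and `τ = θ / ε` this is integrated over `θ ∈ [0, π]` with the weight
`sin θ`; as `∫ cos (θ y) sin θ dθ = (1 + cos (π y)) / (1 - y²)` is not positive for `|y| ≥ 1`, only
the diagonal remains, `N² ≤ N exp (π J / ε)`.
-/

set_option autoImplicit false

namespace Pool.Agent.Results.MP_c890a7_co.LogLogOverLog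

theorem result : ∃ C : ℝ, 0 < C ∧
    ∀ δ : ℕ → ℝ,
      (∀ w : ℕ, δ w = sInf {d : ℝ | ∃ (n : ℕ) (r : Fin n → Fin n → Prop),
          (∀ a, r a a) ∧ (∀ a b c, r a b → r b c → r a c) ∧
          (∀ a b, r a b → r b a → a = b) ∧
          (∃ s : Finset (Fin n), s.card = w ∧ ∀ a ∈ s, ∀ b ∈ s, a ≠ b → ¬ r a b) ∧
          (∀ s : Finset (Fin n), (∀ a ∈ s, ∀ b ∈ s, a ≠ b → ¬ r a b) → s.card ≤ w) ∧
          d = sSup {t : ℝ | ∃ x y : Fin n, ¬ r x y ∧ ¬ r y x ∧
            t = min
              ((Nat.card {σ : Equiv.Perm (Fin n) //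
                  (∀ a b, r a b → σ a ≤ σ b) ∧ σ x < σ y} : ℝ) /
                (Nat.card {σ : Equiv.Perm (Fin n) // ∀ a b, r a b → σ a ≤ σ b} : ℝ))
              ((Nat.card {σ : Equiv.Perm (Fin n) //
                  (∀ a b, r a b → σ a ≤ σ b) ∧ σ y < σ x} : ℝ) /
                (Nat.card {σ : Equiv.Perm (Fin n) // ∀ a b, r a b → σ a ≤ σ b} : ℝ))}}) →
      (∀ (ε : ℝ) (w : ℕ), 0 < ε → ε ≤ 1 / 2 →
        Real.exp (C * Real.log (2 / ε) / ε) ≤ w → 1 / 2 - ε ≤ δ w) ∧
      (∀ w : ℕ, 16 ≤ w →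
        1 / 2 - C * Real.log (Real.log w) / Real.log w ≤ δ w) ∧
      (∀ w v : ℕ, 1 ≤ w → Real.exp (C * w) ≤ v → δ w < δ v) ∧
      (∀ w : ℕ, 1 ≤ w → ∃ u : ℕ, w ≤ u ∧
        (u : ℝ) ≤ Real.exp (C * w) ∧ δ u < δ (u + 1)) ∧
      (∀ w : ℕ, 2 ≤ w → ∃ u : ℕ, w ≤ u ∧ (u : ℝ) ≤ Real.exp (C * w) ∧
        δ u + Real.log u / (400000 * (u : ℝ) ^ 2) ≤ δ (u + 1)) :=
  Pool.Agent.J4H63.BR.main3

end Pool.Agent.Results.MP_c890a7_co.LogLogOverLog
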